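import Mathlib
import Pool.Agent.H833R2.AECDefs

/-!
# Flat SU(2)-connections on the manifolds obtained by surgery on trees of unknots
-/

set_option autoImplicit false

open TreeWRT

namespace Pool.Agent.W617.GR

/-- The group SU(2). -/
abbrev SUtwo : Type := Matrix.specialUnitaryGroup (Fin 2) ℂ

/-- The components of the tree link L that are linked with the component i, in increasing order. -/
def nbrs (L : TreeLink) (i : Fin (L.n + 1)) : List (Fin (L.n + 1)) :=
  (List.finRange (L.n + 1)).filter fun j => L.linking i j ≠ 0 ∧ i ≠ j

/-- The relators of the fundamental group of the manifold obtained by surgery along the framed tree link L,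
in the meridians x_0, ..., x_n: the longitudes x_i ^ framing i * (product of the meridians x_j of the
components linked with the component i) and the commutators of the meridians of two linked components. -/
def rels (L : TreeLink) : Set (FreeGroup (Fin (L.n + 1))) :=
  {w | ∃ i, w = FreeGroup.of i ^ L.framing i * ((nbrs L i).map FreeGroup.of).prod} ∪
  {w | ∃ i j, L.linking i j ≠ 0 ∧ w = FreeGroup.of i * FreeGroup.of j * (FreeGroup.of i)⁻¹ * (FreeGroup.of j)⁻¹}

/-- The fundamental group of the manifold obtained by surgery along the framed tree link L. -/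
abbrev piOne (L : TreeLink) : Type := PresentedGroup (rels L)

/-- The meridian of the component i. -/
def mer (L : TreeLink) (i : Fin (L.n + 1)) : piOne L := PresentedGroup.of i

/-- A flat SU(2)-connection, given by its holonomy. (Gauge classes of flat connections are homomorphisms
to SU(2) up to conjugation.) -/
abbrev Flat (L : TreeLink) : Type := piOne L →* SUtwo

/-- The holonomies of the meridians, which determine a flat connection: the space of flat connections is
regarded as a subspace of SU(2)^(n+1). -/
def hol {L : TreeLink} (ρ : Flat L) : Fin (L.n + 1) → SUtwo := fun i => ρ (mer L i)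

section Cohomology

variable {G : Type*} [Group G]

/-- The Lie algebra su(2): the traceless skew-Hermitian matrices, a real vector space. -/
def suLie : Set (Matrix (Fin 2) (Fin 2) ℂ) := {X | X.conjTranspose = -X ∧ X.trace = 0}

/-- The adjoint action Ad(g) X = g X g⁻¹. -/
def adj (g : SUtwo) (X : Matrix (Fin 2) (Fin 2) ℂ) : Matrix (Fin 2) (Fin 2) ℂ := g.1 * X * (g⁻¹).1

/-- H^0(M; d_A) for the flat connection A with holonomy ρ: the elements of su(2) fixed by the adjoint
action; a real vector space. -/
def spaceH0 (ρ : G →* SUtwo) : Set (Matrix (Fin 2) (Fin 2) ℂ) :=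
  {X | X ∈ suLie ∧ ∀ g, adj (ρ g) X = X}

/-- The 1-cocycles of the fundamental group with values in su(2), for the adjoint action; a real vector
space. -/
def spaceZ1 (ρ : G →* SUtwo) : Set (G → Matrix (Fin 2) (Fin 2) ℂ) :=
  {f | (∀ g, f g ∈ suLie) ∧ ∀ g h, f (g * h) = f g + adj (ρ g) (f h)}

/-- The 1-coboundaries; a real vector space. -/
def spaceB1 (ρ : G →* SUtwo) : Set (G → Matrix (Fin 2) (Fin 2) ℂ) :=
  {f | ∃ X ∈ suLie, ∀ g, f g = adj (ρ g) X - X}

/-- h^0 = dim H^0(M; d_A), the real dimension. -/
noncomputable def h0 (ρ : G →* SUtwo) : ℤ := Set.finrank ℝ (spaceH0 ρ)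

/-- h^1 = dim H^1(M; d_A), H^1 of the fundamental group with values in su(2): the real dimension of the
space of 1-cocycles minus the real dimension of the space of 1-coboundaries. -/
noncomputable def h1 (ρ : G →* SUtwo) : ℤ := (Set.finrank ℝ (spaceZ1 ρ) : ℤ) - Set.finrank ℝ (spaceB1 ρ)

end Cohomology

/-- The real coordinates of a point of SU(2)^(n+1): the real parts and the imaginary parts of the matrix
entries. -/
def coords {n : ℕ} (x : Fin n → SUtwo) : (Fin n × Fin 2 × Fin 2) × Bool → ℝ := fun t =>
  if t.2 then ((x t.1.1).1 t.1.2.1 t.1.2.2).re else ((x t.1.1).1 t.1.2.1 t.1.2.2).im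

/-- U is a relatively Zariski open subset of the set S of flat connections: it consists of the points of S
at which the polynomials of some set do not all vanish. -/
def ZariskiOpenIn {L : TreeLink} (S U : Set (Flat L)) : Prop :=
  ∃ P : Set (MvPolynomial ((Fin (L.n + 1) × Fin 2 × Fin 2) × Bool) ℝ),
    U = {ρ | ρ ∈ S ∧ ∃ p ∈ P, MvPolynomial.eval (coords (hol ρ)) p ≠ 0}

/-- The function cs on flat connections is constant on connected sets of flat connections (as is the
Chern-Simons functional, which is constant on the components of the moduli space). -/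
def ConstOnConnected {L : TreeLink} (cs : Flat L → AddCircle (1 : ℝ)) : Prop :=
  ∀ T : Set (Flat L), IsPreconnected (hol '' T) → ∀ ρ ∈ T, ∀ σ ∈ T, cs ρ = cs σ

/-- The values that h^1 - h^0 takes on a nonempty Zariski open subset of one of the sets M_c of flat
connections on which the function cs has the value c. Twice the number d is the largest element of this
set when cs is the Chern-Simons functional. -/
def genericValues (L : TreeLink) (cs : Flat L → AddCircle (1 : ℝ)) : Set ℤ :=
  {v | ∃ c, ∃ U : Set (Flat L), ZariskiOpenIn {ρ | cs ρ = c} U ∧ U.Nonempty ∧ ∀ ρ ∈ U, h1 ρ - h0 ρ = v}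

end Pool.Agent.W617.GR
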