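import Mathlib
import Pool.Agent.W617.GR.Defs
import Pool.Agent.Helper427.Flat3

set_option autoImplicit false

open Matrix WRT

namespace Pool.Agent.W617.GR

variable {G : Type*} [Group G] (ρ : G →* SUtwo)

/-- H^0 as a submodule -/
def Hz : Submodule ℝ suAlg where
  carrier := {X | ∀ g, Ad (ρ g) X = X}
  add_mem' := by
    intro X Y hX hY g
    rw [map_add, hX g, hY g]
  zero_mem' := by intro g; rw [map_zero]
  smul_mem' := by
    intro c X hX g
    rw [map_smul, hX g]

/-- the cocycles as a submodule -/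
def Zo : Submodule ℝ (G → suAlg) where
  carrier := {f | ∀ g h, f (g * h) = f g + Ad (ρ g) (f h)}
  add_mem' := by
    intro f f' hf hf' g h
    simp only [Pi.add_apply, hf g h, hf' g h, map_add]
    abel
  zero_mem' := by intro g h; simp
  smul_mem' := by
    intro c f hf g h
    simp only [Pi.smul_apply, hf g h, map_smul, smul_add]

/-- the coboundary map -/
noncomputable def del : suAlg →ₗ[ℝ] (G → suAlg) where
  toFun X := fun g => Ad (ρ g) X - X
  map_add' X Y := by
    funext g
    simp only [map_add, Pi.add_apply]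
    abel
  map_smul' c X := by
    funext g
    simp only [map_smul, RingHom.id_apply, Pi.smul_apply, smul_sub]

lemma ker_del : LinearMap.ker (del ρ) = Hz ρ := by
  ext X
  rw [LinearMap.mem_ker]
  constructor
  · intro h g
    have := congrFun h g
    exact sub_eq_zero.mp this
  · intro h
    funext g
    exact sub_eq_zero.mpr (h g)

lemma Ad_mul (g h : SUtwo) (X : suAlg) : Ad (g * h) X = Ad g (Ad h X) :=
  congrArg (fun F : Module.End ℝ suAlg => F X) (AdHom.map_mul g h)

lemma Ad_one (X : suAlg) : Ad 1 X = X :=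
  congrArg (fun F : Module.End ℝ suAlg => F X) AdHom.map_one

lemma del_mem (X : suAlg) : del ρ X ∈ Zo ρ := by
  intro g h
  change Ad (ρ (g * h)) X - X = (Ad (ρ g) X - X) + Ad (ρ g) (Ad (ρ h) X - X)
  rw [map_mul, Ad_mul, map_sub]
  abel

/-- the inclusion of functions -/
noncomputable def incF (G : Type*) : (G → suAlg) →ₗ[ℝ] (G → Matrix (Fin 2) (Fin 2) ℂ) where
  toFun f := fun g => (f g).1
  map_add' f f' := by funext g; rfl
  map_smul' c f := by funext g; rfl

lemma incF_inj : Function.Injective (incF G) := by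
  intro f f' h
  funext g
  apply Subtype.ext
  exact congrFun h g

lemma setfinrank_image {V W : Type*} [AddCommGroup V] [Module ℝ V] [AddCommGroup W] [Module ℝ W] (φ : V →ₗ[ℝ] W)
    (hφ : Function.Injective φ) (p : Submodule ℝ V) (S : Set W) (hS : S = φ '' (p : Set V)) :
    Set.finrank ℝ S = Module.finrank ℝ p := by
  have h1 : Submodule.span ℝ S = p.map φ := by
    rw [hS, Submodule.span_image, Submodule.span_eq]
  rw [Set.finrank, h1]
  exact (Submodule.equivMapOfInjective φ hφ p).finrank_eq.symm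

lemma h0_eq : h0 ρ = Module.finrank ℝ (Hz ρ) := by
  rw [h0, setfinrank_image suAlg.subtype Subtype.val_injective (Hz ρ) (spaceH0 ρ)]
  ext X
  constructor
  · rintro ⟨h1, h2⟩
    exact ⟨⟨X, h1⟩, fun g => Subtype.ext (h2 g), rfl⟩
  · rintro ⟨Y, hY, rfl⟩
    exact ⟨Y.2, fun g => congrArg Subtype.val (hY g)⟩

lemma h1_eq : h1 ρ = (Module.finrank ℝ (Zo ρ) : ℤ) - Module.finrank ℝ (LinearMap.range (del ρ)) := by
  rw [h1, setfinrank_image (incF G) incF_inj (Zo ρ) (spaceZ1 ρ),
    setfinrank_image (incF G) incF_inj (LinearMap.range (del ρ)) (spaceB1 ρ)]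
  · ext f
    constructor
    · rintro ⟨X, h1, h2⟩
      refine ⟨fun g => Ad (ρ g) ⟨X, h1⟩ - ⟨X, h1⟩, ⟨⟨X, h1⟩, rfl⟩, ?_⟩
      funext g
      exact (h2 g).symm
    · rintro ⟨f', ⟨X, hX⟩, rfl⟩
      refine ⟨X.1, X.2, fun g => ?_⟩
      rw [← hX]
      rfl
  · ext f
    constructor
    · rintro ⟨h1, h2⟩
      refine ⟨fun g => ⟨f g, h1 g⟩, fun g h => Subtype.ext (h2 g h), rfl⟩
    · rintro ⟨f', hf', rfl⟩
      exact ⟨fun g => (f' g).2, fun g h => congrArg Subtype.val (hf' g h)⟩

/-- h^1 - h^0 is the dimension of the space of cocycles minus 3 -/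
theorem excess_eq : h1 ρ - h0 ρ = (Module.finrank ℝ (Zo ρ) : ℤ) - 3 := by
  have h := LinearMap.finrank_range_add_finrank_ker (del ρ)
  rw [ker_del, finrank_suAlg] at h
  rw [h0_eq, h1_eq]
  omega

end Pool.Agent.W617.GR
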