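import Mathlib
import Pool.Agent.W617.GR.Lin

set_option autoImplicit false

open Matrix WRT

namespace Pool.Agent.W617.GR

abbrev M2 := Matrix (Fin 2) (Fin 2) ℂ

lemma anti (A B : M2) (hA : A.trace = 0) (hB : B.trace = 0) : A * B + B * A = (A * B).trace • (1 : M2) := by
  have hA' : A 1 1 = -A 0 0 := by
    rw [Matrix.trace_fin_two] at hA
    linear_combination hA
  have hB' : B 1 1 = -B 0 0 := by
    rw [Matrix.trace_fin_two] at hB
    linear_combination hB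
  ext i j
  fin_cases i <;> fin_cases j <;>
    simp [Matrix.mul_apply, Fin.sum_univ_two, Matrix.trace_fin_two, hA', hB'] <;> ring

lemma add_inv (P : SUtwo) : P.1 + (P⁻¹).1 = P.1.trace • (1 : M2) := by
  obtain ⟨h1, h2, h3⟩ := su_entries P
  have hi : (P⁻¹).1 = star P.1 := rfl
  rw [hi]
  ext i j
  have h1' : star (P.1 1 1) = P.1 0 0 := by rw [h1, star_star]
  have h2' : star (P.1 1 0) = -P.1 0 1 := by rw [h2, star_neg, star_star]
  fin_cases i <;> fin_cases j <;>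
    simp only [Fin.zero_eta, Fin.mk_one, Fin.isValue, Matrix.add_apply, Matrix.star_apply, Matrix.smul_apply,
      Matrix.trace_fin_two, Matrix.one_apply_eq, smul_eq_mul, mul_one, ne_eq, zero_ne_one, one_ne_zero,
      not_false_eq_true, Matrix.one_apply_ne, mul_zero]
  · rw [h1]
  · rw [h2']; ring
  · rw [h2]; ring
  · rw [h1', add_comm]

lemma mul_inv1 (P : SUtwo) : P.1 * (P⁻¹).1 = 1 := congrArg Subtype.val (mul_inv_cancel P)
lemma inv_mul1 (P : SUtwo) : (P⁻¹).1 * P.1 = 1 := congrArg Subtype.val (inv_mul_cancel P)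

lemma inv_eq (P : SUtwo) : (P⁻¹).1 = P.1.trace • (1 : M2) - P.1 := by
  rw [← add_inv]; abel

lemma sq_eq (P : SUtwo) : P.1 * P.1 = P.1.trace • P.1 - 1 := by
  have h := inv_mul1 P
  rw [inv_eq, sub_mul, smul_mul_assoc, one_mul] at h
  rw [← h]; abel

/-- the trace is real -/
lemma trace_star (P : SUtwo) : star P.1.trace = P.1.trace := by
  obtain ⟨h1, -, -⟩ := su_entries P
  rw [Matrix.trace_fin_two, h1, star_add, star_star, add_comm]

/-- the relations of the fundamental group of the Hantzsche-Wendt manifold -/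
def Rel {H : Type*} [Group H] (p q : H) : Prop := q * q * p * (q * q) = p ∧ p * p * q * (p * p) = q

lemma Rel.symm {H : Type*} [Group H] {p q : H} (h : Rel p q) : Rel q p := ⟨h.2, h.1⟩

/-- first consequence of a relation -/
lemma rel_trace {P Q : SUtwo} (h : Q * Q * P * (Q * Q) = P) :
    Q.1.trace = 0 ∨ P.1 * Q.1 + Q.1 * P.1 = Q.1.trace • P.1 := by
  have h1 : Q * Q * P = P * (Q⁻¹ * Q⁻¹) := by
    rw [← _root_.mul_inv_rev, eq_mul_inv_iff_mul_eq]
    exact h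
  have h2 : Q.1 * Q.1 * P.1 = P.1 * ((Q⁻¹).1 * (Q⁻¹).1) := congrArg Subtype.val h1
  have h3 : (Q⁻¹).1 * (Q⁻¹).1 = Q.1.trace • (Q⁻¹).1 - 1 := by
    have := sq_eq Q⁻¹
    rw [this]
    congr 2
    have h4 := trace_star Q
    have h5 : (Q⁻¹).1 = star Q.1 := rfl
    rw [h5, ← h4, Matrix.star_eq_conjTranspose, Matrix.trace_conjTranspose, h4]
  rw [sq_eq, h3, inv_eq, sub_mul, mul_sub, smul_mul_assoc, one_mul, mul_one, mul_smul_comm, mul_sub, mul_smul_comm,
    mul_one, sub_left_inj] at h2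
  by_cases h0 : Q.1.trace = 0
  · exact Or.inl h0
  · right
    have h6 : Q.1 * P.1 = Q.1.trace • P.1 - P.1 * Q.1 := by
      have h7 := smul_right_injective M2 h0 h2
      rw [h7]
    rw [h6]; abel


lemma Ad_val (g : SUtwo) (X : suAlg) : (Ad g X).1 = g.1 * X.1 * (g⁻¹).1 := rfl

/-- the condition for the values u, v of a cocycle at p, q coming from the relation q q p q q = p -/
def Cond (P Q : SUtwo) (u v : suAlg) : Prop :=
  (v + Ad Q v) + Ad (Q * Q) u + Ad (Q * Q * P) (v + Ad Q v) = u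

/-- for Q of trace zero -/
lemma w_eq {Q : SUtwo} (hQ : Q.1.trace = 0) (v : suAlg) :
    (v + Ad Q v).1 = -((v.1 * Q.1).trace • Q.1) := by
  have h1 : (Q⁻¹).1 = -Q.1 := by rw [inv_eq, hQ, zero_smul, zero_sub]
  have h2 : Q.1 * Q.1 = -1 := by rw [sq_eq, hQ, zero_smul, zero_sub]
  have h3 := anti v.1 Q.1 v.2.2 hQ
  have h4 : Q.1 * v.1 = (v.1 * Q.1).trace • (1 : M2) - v.1 * Q.1 := by rw [← h3]; abel
  change v.1 + Q.1 * v.1 * (Q⁻¹).1 = _
  rw [h1, mul_neg, h4, sub_mul, smul_mul_assoc, one_mul, mul_assoc, h2]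
  simp

lemma Ad_sq {Q : SUtwo} (hQ : Q.1.trace = 0) : Q * Q = Q⁻¹ * Q⁻¹ := by
  have h1 : (Q⁻¹).1 = -Q.1 := by rw [inv_eq, hQ, zero_smul, zero_sub]
  apply Subtype.ext
  change Q.1 * Q.1 = (Q⁻¹).1 * (Q⁻¹).1
  rw [h1]; simp

lemma Ad_sq_apply {Q : SUtwo} (hQ : Q.1.trace = 0) (u : suAlg) : Ad (Q * Q) u = u := by
  have h1 : (Q⁻¹).1 = -Q.1 := by rw [inv_eq, hQ, zero_smul, zero_sub]
  have h2 : Q.1 * Q.1 = -1 := by rw [sq_eq, hQ, zero_smul, zero_sub]
  apply Subtype.ext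
  rw [Ad_val, _root_.mul_inv_rev]
  change Q.1 * Q.1 * u.1 * ((Q⁻¹).1 * (Q⁻¹).1) = u.1
  rw [h1, h2, neg_mul_neg, h2]
  simp

/-- the condition when Q has trace zero -/
lemma cond_zero {P Q : SUtwo} (hQ : Q.1.trace = 0) {u v : suAlg} (h : Cond P Q u v) :
    (v.1 * Q.1).trace • (Q.1 + P.1 * Q.1 * (P⁻¹).1) = 0 := by
  unfold Cond at h
  rw [Ad_sq_apply hQ, Ad_mul, Ad_sq_apply hQ] at h
  have h1 : (v + Ad Q v) + Ad P (v + Ad Q v) = 0 := by
    have h2 : (v + Ad Q v) + Ad P (v + Ad Q v) = ((v + Ad Q v) + u + Ad P (v + Ad Q v)) - u := by abel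
    rw [h2, h, sub_self]
  have h2 := congrArg Subtype.val h1
  change (v + Ad Q v).1 + P.1 * (v + Ad Q v).1 * (P⁻¹).1 = 0 at h2
  rw [w_eq hQ] at h2
  rw [smul_add, ← neg_eq_zero, ← h2]
  simp
  abel

lemma L1 {P Q : SUtwo} (hQ : Q.1.trace = 0) (hP : P.1.trace = 0) (hs : (P.1 * Q.1).trace ≠ 0) {u v : suAlg}
    (h : Cond P Q u v) : (v.1 * Q.1).trace = 0 := by
  have h1 := cond_zero hQ h
  rw [inv_eq, hP, zero_smul, zero_sub] at h1
  have h2 : P.1 * P.1 = -1 := by rw [sq_eq, hP, zero_smul, zero_sub]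
  have h3 := anti P.1 Q.1 hP hQ
  have h4 : Q.1 + P.1 * Q.1 * -P.1 = -((P.1 * Q.1).trace • P.1) := by
    have h5 : Q.1 * P.1 = (P.1 * Q.1).trace • (1 : M2) - P.1 * Q.1 := by rw [← h3]; abel
    rw [mul_neg, mul_assoc, h5, mul_sub, mul_smul_comm, mul_one, ← mul_assoc, h2]
    simp
  rw [h4] at h1
  by_contra h0
  have h6 : P.1 = 0 := by
    rw [smul_neg, neg_eq_zero, smul_smul] at h1
    exact (smul_eq_zero.mp h1).resolve_left (mul_ne_zero h0 hs)
  rw [h6] at h2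
  simp at h2

lemma L2 {P Q : SUtwo} (hQ : Q.1.trace = 0) (hPQ : P.1 * Q.1 = Q.1 * (P⁻¹).1) (hP : P.1.trace ≠ 0) {u v : suAlg}
    (h : Cond P Q u v) : (v.1 * Q.1).trace = 0 := by
  have h1 := cond_zero hQ h
  have h2 : Q.1 + P.1 * Q.1 * (P⁻¹).1 = P.1.trace • (Q.1 * (P⁻¹).1) := by
    rw [hPQ]
    have h3 := add_inv P
    have h4 : Q.1 = Q.1 * (P⁻¹).1 * P.1 := by rw [mul_assoc, inv_mul1, mul_one]
    calc Q.1 + Q.1 * (P⁻¹).1 * (P⁻¹).1 = Q.1 * (P⁻¹).1 * P.1 + Q.1 * (P⁻¹).1 * (P⁻¹).1 := by rw [← h4]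
      _ = Q.1 * (P⁻¹).1 * (P.1 + (P⁻¹).1) := by rw [mul_add]
      _ = _ := by rw [h3, mul_smul_comm, mul_one]
  rw [h2] at h1
  by_contra h0
  rw [smul_smul] at h1
  have h6 := (smul_eq_zero.mp h1).resolve_left (mul_ne_zero h0 hP)
  have h7 : Q.1 * (P⁻¹).1 * (P.1 * (Q⁻¹).1) = 1 := by
    rw [mul_assoc, ← mul_assoc (P⁻¹).1, inv_mul1, one_mul, mul_inv1]
  rw [h6] at h7
  simp at h7


lemma L3 {P Q : SUtwo} (hPQ : P.1 * Q.1 = Q.1 * (P⁻¹).1) (hP : P.1.trace ≠ 0) {u v : suAlg}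
    (h : Cond Q P v u) : 2 * (u.1 * (P.1 * Q.1)).trace + (v.1 * (Q.1 * P.1 - P.1 * Q.1)).trace = 0 := by
  have h1 := congrArg Subtype.val h
  change (u + Ad P u).1 + (Ad (P * P) v).1 + (Ad (P * P * Q) (u + Ad P u)).1 = v.1 at h1
  rw [Ad_val, Ad_val, _root_.mul_inv_rev, _root_.mul_inv_rev, _root_.mul_inv_rev] at h1
  set W : M2 := (u + Ad P u).1 with hW
  change W + P.1 * P.1 * v.1 * ((P⁻¹).1 * (P⁻¹).1) +
    P.1 * P.1 * Q.1 * W * ((Q⁻¹).1 * ((P⁻¹).1 * (P⁻¹).1)) = v.1 at h1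
  have h2 := congrArg (fun X : M2 => (X * (P.1 * P.1 * Q.1)).trace) h1
  have e1 : P.1 * P.1 * v.1 * ((P⁻¹).1 * (P⁻¹).1) * (P.1 * P.1 * Q.1) = P.1 * P.1 * (v.1 * Q.1) := by
    have : (P⁻¹).1 * (P⁻¹).1 * (P.1 * P.1 * Q.1) = Q.1 := by
      rw [mul_assoc (P⁻¹).1, ← mul_assoc (P⁻¹).1 (P.1 * P.1), ← mul_assoc (P⁻¹).1 P.1 P.1, inv_mul1, one_mul,
        ← mul_assoc, inv_mul1, one_mul]
    rw [mul_assoc (P.1 * P.1 * v.1), this, mul_assoc]
  have e2 : P.1 * P.1 * Q.1 * W * ((Q⁻¹).1 * ((P⁻¹).1 * (P⁻¹).1)) * (P.1 * P.1 * Q.1) = P.1 * P.1 * Q.1 * W := by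
    have : (P⁻¹).1 * (P⁻¹).1 * (P.1 * P.1 * Q.1) = Q.1 := by
      rw [mul_assoc (P⁻¹).1, ← mul_assoc (P⁻¹).1 (P.1 * P.1), ← mul_assoc (P⁻¹).1 P.1 P.1, inv_mul1, one_mul,
        ← mul_assoc, inv_mul1, one_mul]
    rw [mul_assoc (P.1 * P.1 * Q.1 * W), mul_assoc (Q⁻¹).1, this, inv_mul1, mul_one]
  rw [add_mul, add_mul, e1, e2, Matrix.trace_add, Matrix.trace_add, Matrix.trace_mul_comm (P.1 * P.1) (v.1 * Q.1),
    Matrix.trace_mul_comm (P.1 * P.1 * Q.1) W] at h2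
  -- the term with W
  have e3 : (W * (P.1 * P.1 * Q.1)).trace = P.1.trace * (u.1 * (P.1 * Q.1)).trace := by
    have f1 : W = u.1 + P.1 * u.1 * (P⁻¹).1 := rfl
    have f2 : P.1 * u.1 * (P⁻¹).1 * (P.1 * P.1 * Q.1) = P.1 * (u.1 * (P.1 * Q.1)) := by
      have : (P⁻¹).1 * (P.1 * P.1 * Q.1) = P.1 * Q.1 := by
        rw [← mul_assoc, ← mul_assoc, inv_mul1, one_mul]
      rw [mul_assoc (P.1 * u.1), this, mul_assoc]
    have f3 : P.1 * Q.1 * P.1 = Q.1 := by rw [hPQ, mul_assoc, inv_mul1, mul_one]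
    rw [f1, add_mul, f2, Matrix.trace_add, Matrix.trace_mul_comm P.1, mul_assoc u.1, f3, ← Matrix.trace_add,
      ← mul_add, sq_eq, sub_mul, one_mul, sub_add_cancel, smul_mul_assoc, mul_smul_comm, Matrix.trace_smul,
      smul_eq_mul]
  have e4 : (v.1 * Q.1 * (P.1 * P.1)).trace - (v.1 * (P.1 * P.1 * Q.1)).trace =
      P.1.trace * (v.1 * (Q.1 * P.1 - P.1 * Q.1)).trace := by
    rw [← Matrix.trace_sub, mul_assoc, ← mul_sub, sq_eq]
    have : Q.1 * (P.1.trace • P.1 - 1) - (P.1.trace • P.1 - 1) * Q.1 = P.1.trace • (Q.1 * P.1 - P.1 * Q.1) := by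
      rw [mul_sub, sub_mul, mul_smul_comm, smul_mul_assoc, smul_sub]
      simp
    rw [this, mul_smul_comm, Matrix.trace_smul, smul_eq_mul]
  rw [e3] at h2
  apply mul_left_cancel₀ hP
  rw [mul_zero]
  linear_combination h2 - e4

/-- both traces nonzero -/
lemma both_scalar {P Q : SUtwo} (hP : P.1.trace ≠ 0)
    (h1 : P.1 * Q.1 + Q.1 * P.1 = Q.1.trace • P.1) (h2 : Q.1 * P.1 + P.1 * Q.1 = P.1.trace • Q.1) :
    Q.1 = (Q.1.trace / 2) • (1 : M2) := by
  have h3 : Q.1.trace • P.1 = P.1.trace • Q.1 := by rw [← h1, ← h2, add_comm]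
  have h4 : P.1 * Q.1 = Q.1 * P.1 := by
    have h5 : Q.1 = (P.1.trace⁻¹ * Q.1.trace) • P.1 := by
      rw [mul_smul, h3, smul_smul, inv_mul_cancel₀ hP, one_smul]
    rw [h5, mul_smul_comm, smul_mul_assoc]
  rw [h4, ← two_smul ℂ, eq_comm] at h1
  have h6 : Q.1 * P.1 = (Q.1.trace / 2) • P.1 := by
    have h7 : ((1 : ℂ) / 2) • (Q.1.trace • P.1) = ((1 : ℂ) / 2) • ((2 : ℂ) • (Q.1 * P.1)) := by rw [h1]
    rw [smul_smul, smul_smul] at h7
    norm_num at h7
    rw [← h7]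
    congr 1
    ring
  calc Q.1 = Q.1 * P.1 * (P⁻¹).1 := by rw [mul_assoc, mul_inv1, mul_one]
    _ = _ := by rw [h6, smul_mul_assoc, mul_inv1]

lemma Ad_scalar {Q : SUtwo} {c : ℂ} (h : Q.1 = c • (1 : M2)) (v : suAlg) : Ad Q v = v := by
  apply Subtype.ext
  rw [Ad_val]
  have h1 : Q.1 * v.1 = v.1 * Q.1 := by rw [h]; simp
  rw [h1, mul_assoc, mul_inv1, mul_one]

lemma L4 {P Q : SUtwo} {c d : ℂ} (hP : P.1 = c • (1 : M2)) (hQ : Q.1 = d • (1 : M2)) {u v : suAlg}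
    (h : Cond P Q u v) : v = 0 := by
  unfold Cond at h
  simp only [Ad_mul, Ad_scalar hP, Ad_scalar hQ] at h
  have h1 : (4 : ℝ) • v = 0 := by
    have h2 : (4 : ℝ) • v = (v + v + u + (v + v)) - u := by
      rw [show (4 : ℝ) = 1 + 1 + 1 + 1 by norm_num, add_smul, add_smul, add_smul, one_smul]
      abel
    rw [h2, h, sub_self]
  exact (smul_eq_zero.mp h1).resolve_left (by norm_num)

/-- the condition as a linear map -/
noncomputable def cmap (P Q : SUtwo) : suAlg × suAlg →ₗ[ℝ] suAlg :=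
  (LinearMap.snd ℝ suAlg suAlg + (Ad Q).comp (LinearMap.snd ℝ suAlg suAlg)) +
    (Ad (Q * Q)).comp (LinearMap.fst ℝ suAlg suAlg) +
    (Ad (Q * Q * P)).comp (LinearMap.snd ℝ suAlg suAlg + (Ad Q).comp (LinearMap.snd ℝ suAlg suAlg)) -
    LinearMap.fst ℝ suAlg suAlg

lemma cond_iff (P Q : SUtwo) (u v : suAlg) : Cond P Q u v ↔ cmap P Q (u, v) = 0 := by
  rw [Cond, ← sub_eq_zero]
  rfl

/-- the pairs (u, v) satisfying the two conditions -/
noncomputable def K (P Q : SUtwo) : Submodule ℝ (suAlg × suAlg) :=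
  LinearMap.ker (cmap P Q) ⊓ LinearMap.ker ((cmap Q P).comp (LinearEquiv.prodComm ℝ suAlg suAlg).toLinearMap)

lemma mem_K {P Q : SUtwo} {x : suAlg × suAlg} : x ∈ K P Q ↔ Cond P Q x.1 x.2 ∧ Cond Q P x.2 x.1 := by
  rw [K, Submodule.mem_inf, LinearMap.mem_ker, LinearMap.mem_ker, cond_iff, cond_iff]
  rfl

/-- swapping -/
lemma finrank_K_swap (P Q : SUtwo) : Module.finrank ℝ (K P Q) = Module.finrank ℝ (K Q P) := by
  have h : K Q P = (K P Q).map (LinearEquiv.prodComm ℝ suAlg suAlg).toLinearMap := by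
    ext ⟨u, v⟩
    rw [mem_K, Submodule.mem_map]
    constructor
    · rintro ⟨h1, h2⟩
      exact ⟨(v, u), mem_K.mpr ⟨h2, h1⟩, rfl⟩
    · rintro ⟨⟨u', v'⟩, h1, h2⟩
      obtain ⟨h3, h4⟩ := mem_K.mp h1
      have h5 : v' = u := congrArg Prod.fst h2
      have h6 : u' = v := congrArg Prod.snd h2
      subst h5 h6
      exact ⟨h4, h3⟩
  rw [h]
  exact (LinearEquiv.finrank_map_eq (LinearEquiv.prodComm ℝ suAlg suAlg) (K P Q)).symm

/-- the real part of a trace form -/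
noncomputable def tf (A : M2) : suAlg →ₗ[ℝ] ℝ where
  toFun X := (X.1 * A).trace.re
  map_add' X Y := by simp [add_mul]
  map_smul' c X := by simp

lemma finrank_le_four {S : Submodule ℝ (suAlg × suAlg)} (A B C D : M2)
    (hS : ∀ x ∈ S, tf A x.1 + tf B x.2 = 0 ∧ tf C x.1 + tf D x.2 = 0)
    (x y : suAlg × suAlg) (h1 : tf A x.1 + tf B x.2 ≠ 0) (h2 : tf C x.1 + tf D x.2 = 0)
    (h3 : tf A y.1 + tf B y.2 = 0) (h4 : tf C y.1 + tf D y.2 ≠ 0) : Module.finrank ℝ S ≤ 4 := by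
  let Λ : suAlg × suAlg →ₗ[ℝ] ℝ × ℝ := LinearMap.prod
    ((tf A).comp (LinearMap.fst ℝ suAlg suAlg) + (tf B).comp (LinearMap.snd ℝ suAlg suAlg))
    ((tf C).comp (LinearMap.fst ℝ suAlg suAlg) + (tf D).comp (LinearMap.snd ℝ suAlg suAlg))
  have hΛ : ∀ z, Λ z = (tf A z.1 + tf B z.2, tf C z.1 + tf D z.2) := fun z => rfl
  have : FiniteDimensional ℝ suAlg := Module.finite_of_finrank_pos (by rw [finrank_suAlg]; norm_num)
  have hle : S ≤ LinearMap.ker Λ := by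
    intro z hz
    rw [LinearMap.mem_ker, hΛ]
    obtain ⟨h5, h6⟩ := hS z hz
    rw [h5, h6]; rfl
  have hsurj : LinearMap.range Λ = ⊤ := by
    rw [LinearMap.range_eq_top]
    rintro ⟨a, b⟩
    refine ⟨(a / (tf A x.1 + tf B x.2)) • x + (b / (tf C y.1 + tf D y.2)) • y, ?_⟩
    rw [map_add, map_smul, map_smul, hΛ, hΛ, h2, h3]
    ext
    · simp [h1]
    · simp [h4]
  have h5 := LinearMap.finrank_range_add_finrank_ker Λ
  rw [hsurj, finrank_top, Module.finrank_prod, Module.finrank_prod, finrank_suAlg, Module.finrank_self] at h5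
  have h6 := Submodule.finrank_mono hle
  omega


/-- a trace zero element of SU(2) as an element of su(2) -/
def toSu {Q : SUtwo} (hQ : Q.1.trace = 0) : suAlg := ⟨Q.1, by
  have h1 : (Q⁻¹).1 = -Q.1 := by rw [inv_eq, hQ, zero_smul, zero_sub]
  exact h1, hQ⟩

lemma toSu_val {Q : SUtwo} (hQ : Q.1.trace = 0) : (toSu hQ).1 = Q.1 := rfl

lemma sq_zero {Q : SUtwo} (hQ : Q.1.trace = 0) : Q.1 * Q.1 = -1 := by rw [sq_eq, hQ, zero_smul, zero_sub]

lemma trace_one : (1 : M2).trace = 2 := by simp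

lemma trace_neg_one : (-1 : M2).trace = -2 := by simp

/-- the case of trace Q = 0 -/
lemma finrank_K_le_aux (P Q : SUtwo) (h : Rel P Q) (hQ : Q.1.trace = 0)
    (hne : P.1.trace = 0 → (P.1 * Q.1).trace ≠ 0) : Module.finrank ℝ (K P Q) ≤ 4 := by
  by_cases hP : P.1.trace = 0
  · refine finrank_le_four 0 Q.1 P.1 0 ?_ (0, toSu hQ) (toSu hP, 0) ?_ ?_ ?_ ?_
    · intro x hx
      obtain ⟨h1, h2⟩ := mem_K.mp hx
      have h3 := L1 hQ hP (hne hP) h1
      have h4 := L1 hP hQ (by rw [Matrix.trace_mul_comm]; exact hne hP) h2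
      constructor
      · simp [tf, h3]
      · simp [tf, h4]
    · simp [tf, toSu_val, sq_zero hQ]
    · simp [tf]
    · simp [tf]
    · simp [tf, toSu_val, sq_zero hP]
  · have h1 := (rel_trace h.symm.1).resolve_left hP
    have hPQ : P.1 * Q.1 = Q.1 * (P⁻¹).1 := by
      rw [inv_eq, mul_sub, mul_smul_comm, mul_one, ← h1]; abel
    have h0 : (P.1 * Q.1).trace = 0 := by
      have h2 := congrArg Matrix.trace h1
      rw [Matrix.trace_add, Matrix.trace_mul_comm, Matrix.trace_smul, hQ, smul_zero] at h2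
      have h3 : 2 * (P.1 * Q.1).trace = 0 := by linear_combination h2
      exact (mul_eq_zero.mp h3).resolve_left two_ne_zero
    have hPQt : (P * Q).1.trace = 0 := h0
    refine finrank_le_four 0 Q.1 ((2 : ℂ) • (P.1 * Q.1)) (Q.1 * P.1 - P.1 * Q.1) ?_ (0, toSu hQ) (toSu hPQt, 0) ?_ ?_ ?_ ?_
    · intro x hx
      obtain ⟨h1, h2⟩ := mem_K.mp hx
      have h3 := L2 hQ hPQ hP h1
      have h4 := L3 hPQ hP h2
      constructor
      · simp [tf, h3]
      · have h5 := congrArg Complex.re h4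
        rw [Complex.add_re, Complex.zero_re] at h5
        rw [← h5]
        simp [tf]
    · simp [tf, toSu_val, sq_zero hQ]
    · have h5 : Q.1 * (Q.1 * P.1 - P.1 * Q.1) = -P.1 - Q.1 * (P.1 * Q.1) := by
        rw [mul_sub, ← mul_assoc, sq_zero hQ]; simp
      have h6 : (Q.1 * (P.1 * Q.1)).trace = -P.1.trace := by
        rw [Matrix.trace_mul_comm, mul_assoc, sq_zero hQ]; simp
      have h7 : (Q.1 * (Q.1 * P.1 - P.1 * Q.1)).trace = 0 := by
        rw [h5, Matrix.trace_sub, h6, Matrix.trace_neg]; ring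
      simp only [tf, LinearMap.coe_mk, AddHom.coe_mk, toSu_val, h7]
      simp
    · simp [tf]
    · have h5 : P.1 * Q.1 * (P.1 * Q.1) = -1 := by
        have := sq_zero hPQt
        exact this
      have h6 : (toSu hPQt).1 * ((2 : ℂ) • (P.1 * Q.1)) = (2 : ℂ) • (-1 : M2) := by
        rw [toSu_val, mul_smul_comm]
        congr 1
      simp only [tf, LinearMap.coe_mk, AddHom.coe_mk, h6]
      simp

/-- the dimension bound -/
theorem finrank_K_le (P Q : SUtwo) (h : Rel P Q)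
    (hne : ¬ (P.1.trace = 0 ∧ Q.1.trace = 0 ∧ (P.1 * Q.1).trace = 0)) : Module.finrank ℝ (K P Q) ≤ 4 := by
  by_cases hQ : Q.1.trace = 0
  · exact finrank_K_le_aux P Q h hQ fun hP h0 => hne ⟨hP, hQ, h0⟩
  by_cases hP : P.1.trace = 0
  · rw [finrank_K_swap]
    refine finrank_K_le_aux Q P h.symm hP fun hQ' => absurd hQ' hQ
  have h1 := (rel_trace h.1).resolve_left hQ
  have h2 := (rel_trace h.symm.1).resolve_left hP
  have h3 := both_scalar hP h1 h2
  have h4 := both_scalar hQ h2 h1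
  have h5 : K P Q = ⊥ := by
    rw [eq_bot_iff]
    rintro ⟨u, v⟩ hx
    obtain ⟨h6, h7⟩ := mem_K.mp hx
    rw [Submodule.mem_bot]
    have h8 : v = 0 := L4 h4 h3 h6
    have h9 : u = 0 := L4 h3 h4 h7
    rw [h8, h9]; rfl
  rw [h5]
  simp

/-- the classification needed for the generic points -/
theorem classify {P Q : SUtwo} (h : Rel P Q) (h0 : (P.1 * Q.1).trace ≠ 0)
    (h4 : (P.1 * Q.1).trace ^ 2 ≠ 4) : P.1.trace = 0 ∧ Q.1.trace = 0 := by
  by_cases hQ : Q.1.trace = 0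
  · refine ⟨?_, hQ⟩
    by_contra hP
    have h1 := (rel_trace h.symm.1).resolve_left hP
    have h2 := congrArg Matrix.trace h1
    rw [Matrix.trace_add, Matrix.trace_mul_comm, Matrix.trace_smul, hQ, smul_zero] at h2
    have h3 : 2 * (P.1 * Q.1).trace = 0 := by linear_combination h2
    exact h0 ((mul_eq_zero.mp h3).resolve_left two_ne_zero)
  · exfalso
    have h1 := (rel_trace h.1).resolve_left hQ
    by_cases hP : P.1.trace = 0
    · have h2 := congrArg Matrix.trace h1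
      rw [Matrix.trace_add, Matrix.trace_mul_comm, Matrix.trace_smul, hP, smul_zero,
        Matrix.trace_mul_comm] at h2
      have h3 : 2 * (P.1 * Q.1).trace = 0 := by linear_combination h2
      exact h0 ((mul_eq_zero.mp h3).resolve_left two_ne_zero)
    · have h2 := (rel_trace h.symm.1).resolve_left hP
      have h3 := both_scalar hP h1 h2
      have h5 := both_scalar hQ h2 h1
      have e1 : (Q.1.trace / 2) ^ 2 = 1 := by
        have h6 := (su_entries Q).2.2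
        rw [h3] at h6
        simp at h6
        rw [← h6]; ring
      have e2 : (P.1.trace / 2) ^ 2 = 1 := by
        have h6 := (su_entries P).2.2
        rw [h5] at h6
        simp at h6
        rw [← h6]; ring
      apply h4
      have e3 : P.1 * Q.1 = ((P.1.trace / 2) * (Q.1.trace / 2)) • (1 : M2) := by
        conv_lhs => rw [h3, h5]
        rw [smul_mul_smul_comm, one_mul]
      rw [e3, Matrix.trace_smul, trace_one]
      have : ((P.1.trace / 2) * (Q.1.trace / 2)) ^ 2 = 1 := by rw [mul_pow, e1, e2, one_mul]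
      rw [smul_eq_mul, mul_pow, this]
      norm_num

end Pool.Agent.W617.GR
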