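import Mathlib
import Pool.Agent.W617.GR.Pair

set_option autoImplicit false

open WRT TreeWRT

namespace Pool.Agent.W617.GR

lemma nb0 : nbrs linkM 0 = [1, 2, 3] := by decide
lemma nb1 : nbrs linkM 1 = [0, 4, 5] := by decide
lemma nb2 : nbrs linkM 2 = [0] := by decide
lemma nb3 : nbrs linkM 3 = [0] := by decide
lemma nb4 : nbrs linkM 4 = [1] := by decide
lemma nb5 : nbrs linkM 5 = [1] := by decide

/-- the images of the six meridians -/
def gens {H : Type*} [Group H] (p q : H) : Fin (linkM.n + 1) → H :=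
  ![p⁻¹ * p⁻¹, q⁻¹ * q⁻¹, p, p⁻¹ * (q * q), q, q⁻¹ * (p * p)]

lemma gens_rel {H : Type*} [Group H] {p q : H} (h : Rel p q) :
    ∀ r ∈ rels linkM, FreeGroup.lift (gens p q) r = 1 := by
  obtain ⟨h1, h2⟩ := h
  have hA : q * q * (p⁻¹ * (q * q)) = p⁻¹ := by
    have h3 : p⁻¹ = (q * q)⁻¹ * (p⁻¹ * (q * q)⁻¹) := by
      rw [← _root_.mul_inv_rev, ← _root_.mul_inv_rev, h1]
    calc q * q * (p⁻¹ * (q * q)) = (q * q) * ((q * q)⁻¹ * (p⁻¹ * (q * q)⁻¹)) * (q * q) := by rw [← h3, mul_assoc (q * q)]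
      _ = p⁻¹ := by group
  have hB : p * p * (q⁻¹ * (p * p)) = q⁻¹ := by
    have h3 : q⁻¹ = (p * p)⁻¹ * (q⁻¹ * (p * p)⁻¹) := by
      rw [← _root_.mul_inv_rev, ← _root_.mul_inv_rev, h2]
    calc p * p * (q⁻¹ * (p * p)) = (p * p) * ((p * p)⁻¹ * (q⁻¹ * (p * p)⁻¹)) * (p * p) := by rw [← h3, mul_assoc (p * p)]
      _ = q⁻¹ := by group
  have e3 : p⁻¹ * (q * q) * (p⁻¹ * (q * q)) = p⁻¹ * p⁻¹ := by
    rw [mul_assoc, hA]
  have e5 : q⁻¹ * (p * p) * (q⁻¹ * (p * p)) = q⁻¹ * q⁻¹ := by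
    rw [mul_assoc, hB]
  have c1 : q * q * p = p * (q⁻¹ * q⁻¹) := by
    rw [← _root_.mul_inv_rev, eq_mul_inv_iff_mul_eq]; exact h1
  have c2 : q⁻¹ * q⁻¹ * p = p * (q * q) := by
    rw [← _root_.mul_inv_rev, inv_mul_eq_iff_eq_mul, ← mul_assoc, h1]
  have c3 : q⁻¹ * q⁻¹ * (p * p) = p * p * (q⁻¹ * q⁻¹) := by
    rw [← mul_assoc, c2, mul_assoc, c1, ← mul_assoc]
  have c4 : Commute (p * p) (q⁻¹ * q⁻¹) := c3.symm
  have c5 : Commute (p⁻¹ * p⁻¹) (q⁻¹ * q⁻¹) := by
    have := c4.inv_left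
    rwa [_root_.mul_inv_rev] at this
  rintro r (⟨i, rfl⟩ | ⟨i, j, hij, rfl⟩)
  · have hi : i = 0 ∨ i = 1 ∨ i = 2 ∨ i = 3 ∨ i = 4 ∨ i = 5 := by revert i; decide
    rcases hi with rfl | rfl | rfl | rfl | rfl | rfl
    · rw [nb0]
      change FreeGroup.lift (gens p q) (FreeGroup.of 0 ^ (0 : ℤ) * (FreeGroup.of 1 * (FreeGroup.of 2 * (FreeGroup.of 3 * 1)))) = 1
      simp only [map_mul, map_one, zpow_zero, FreeGroup.lift_apply_of]
      change 1 * ((q⁻¹ * q⁻¹) * (p * ((p⁻¹ * (q * q)) * 1))) = 1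
      group
    · rw [nb1]
      change FreeGroup.lift (gens p q) (FreeGroup.of 1 ^ (0 : ℤ) * (FreeGroup.of 0 * (FreeGroup.of 4 * (FreeGroup.of 5 * 1)))) = 1
      simp only [map_mul, map_one, zpow_zero, FreeGroup.lift_apply_of]
      change 1 * ((p⁻¹ * p⁻¹) * (q * ((q⁻¹ * (p * p)) * 1))) = 1
      group
    · rw [nb2]
      change FreeGroup.lift (gens p q) (FreeGroup.of 2 ^ (2 : ℤ) * (FreeGroup.of 0 * 1)) = 1
      simp only [map_mul, map_one, map_zpow, FreeGroup.lift_apply_of]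
      change p ^ (2 : ℤ) * ((p⁻¹ * p⁻¹) * 1) = 1
      group
    · rw [nb3]
      change FreeGroup.lift (gens p q) (FreeGroup.of 3 ^ (-2 : ℤ) * (FreeGroup.of 0 * 1)) = 1
      simp only [map_mul, map_one, map_zpow, FreeGroup.lift_apply_of]
      change (p⁻¹ * (q * q)) ^ (-2 : ℤ) * ((p⁻¹ * p⁻¹) * 1) = 1
      rw [zpow_neg, show (2 : ℤ) = ((2 : ℕ) : ℤ) from rfl, zpow_natCast, pow_two, e3]
      group
    · rw [nb4]
      change FreeGroup.lift (gens p q) (FreeGroup.of 4 ^ (2 : ℤ) * (FreeGroup.of 1 * 1)) = 1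
      simp only [map_mul, map_one, map_zpow, FreeGroup.lift_apply_of]
      change q ^ (2 : ℤ) * ((q⁻¹ * q⁻¹) * 1) = 1
      group
    · rw [nb5]
      change FreeGroup.lift (gens p q) (FreeGroup.of 5 ^ (-2 : ℤ) * (FreeGroup.of 1 * 1)) = 1
      simp only [map_mul, map_one, map_zpow, FreeGroup.lift_apply_of]
      change (q⁻¹ * (p * p)) ^ (-2 : ℤ) * ((q⁻¹ * q⁻¹) * 1) = 1
      rw [zpow_neg, show (2 : ℤ) = ((2 : ℕ) : ℤ) from rfl, zpow_natCast, pow_two, e5]
      group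
  · simp only [map_mul, map_inv, FreeGroup.lift_apply_of]
    have key : Commute (gens p q i) (gens p q j) := by
      have k02 : Commute (p⁻¹ * p⁻¹) p := by
        have : Commute p⁻¹ p := (Commute.refl p).inv_left
        exact this.mul_left this
      have k14 : Commute (q⁻¹ * q⁻¹) q := by
        have : Commute q⁻¹ q := (Commute.refl q).inv_left
        exact this.mul_left this
      have k03 : Commute (p⁻¹ * p⁻¹) (p⁻¹ * (q * q)) := by
        rw [← e3]
        exact (Commute.refl _).mul_left (Commute.refl _)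
      have k15 : Commute (q⁻¹ * q⁻¹) (q⁻¹ * (p * p)) := by
        rw [← e5]
        exact (Commute.refl _).mul_left (Commute.refl _)
      have hi : ∀ i : Fin (linkM.n + 1), i = 0 ∨ i = 1 ∨ i = 2 ∨ i = 3 ∨ i = 4 ∨ i = 5 := by decide
      rcases hi i with rfl | rfl | rfl | rfl | rfl | rfl <;> rcases hi j with rfl | rfl | rfl | rfl | rfl | rfl <;>
        first
        | exact absurd rfl hij
        | exact Commute.refl _
        | exact c5
        | exact c5.symm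
        | exact k02
        | exact k02.symm
        | exact k03
        | exact k03.symm
        | exact k14
        | exact k14.symm
        | exact k15
        | exact k15.symm
    rw [key.eq, mul_assoc, mul_assoc]
    simp

/-- the homomorphism of the fundamental group given by two elements satisfying the relations -/
noncomputable def mk {H : Type*} [Group H] {p q : H} (h : Rel p q) : piOne linkM →* H :=
  PresentedGroup.toGroup (gens_rel h)

lemma mk_mer {H : Type*} [Group H] {p q : H} (h : Rel p q) (i : Fin (linkM.n + 1)) :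
    mk h (mer linkM i) = gens p q i := PresentedGroup.toGroup.of (gens_rel h)

lemma rel_one (i : Fin (linkM.n + 1)) :
    mer linkM i ^ linkM.framing i * ((nbrs linkM i).map (mer linkM)).prod = 1 := by
  have h := PresentedGroup.one_of_mem (rels := rels linkM) (x := FreeGroup.of i ^ linkM.framing i * ((nbrs linkM i).map FreeGroup.of).prod)
    (Or.inl ⟨i, rfl⟩)
  rw [map_mul, map_zpow, map_list_prod, List.map_map] at h
  exact h

lemma mer_eq (i : Fin (linkM.n + 1)) : mer linkM i = gens (mer linkM 2) (mer linkM 4) i := by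
  have h0 := rel_one 0
  have h1 := rel_one 1
  have h2 := rel_one 2
  have h3 := rel_one 3
  have h4 := rel_one 4
  have h5 := rel_one 5
  rw [nb0] at h0
  rw [nb1] at h1
  rw [nb2] at h2
  rw [nb3] at h3
  rw [nb4] at h4
  rw [nb5] at h5
  change mer linkM 0 ^ (0 : ℤ) * (mer linkM 1 * (mer linkM 2 * (mer linkM 3 * 1))) = 1 at h0
  change mer linkM 1 ^ (0 : ℤ) * (mer linkM 0 * (mer linkM 4 * (mer linkM 5 * 1))) = 1 at h1
  change mer linkM 2 ^ (2 : ℤ) * (mer linkM 0 * 1) = 1 at h2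
  change mer linkM 4 ^ (2 : ℤ) * (mer linkM 1 * 1) = 1 at h4
  rw [mul_one, zpow_ofNat, pow_two] at h2 h4
  rw [zpow_zero, one_mul, mul_one] at h0 h1
  have g0 : mer linkM 0 = (mer linkM 2)⁻¹ * (mer linkM 2)⁻¹ := by
    rw [← _root_.mul_inv_rev]; exact eq_inv_of_mul_eq_one_right h2
  have g1 : mer linkM 1 = (mer linkM 4)⁻¹ * (mer linkM 4)⁻¹ := by
    rw [← _root_.mul_inv_rev]; exact eq_inv_of_mul_eq_one_right h4
  have g3 : mer linkM 3 = (mer linkM 2)⁻¹ * (mer linkM 4 * mer linkM 4) := by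
    rw [← mul_assoc] at h0
    have := eq_inv_of_mul_eq_one_right h0
    rw [this, g1]
    simp only [_root_.mul_inv_rev, inv_inv]
  have g5 : mer linkM 5 = (mer linkM 4)⁻¹ * (mer linkM 2 * mer linkM 2) := by
    rw [← mul_assoc] at h1
    have := eq_inv_of_mul_eq_one_right h1
    rw [this, g0]
    simp only [_root_.mul_inv_rev, inv_inv]
  have hi : i = 0 ∨ i = 1 ∨ i = 2 ∨ i = 3 ∨ i = 4 ∨ i = 5 := by revert i; decide
  rcases hi with rfl | rfl | rfl | rfl | rfl | rfl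
  · exact g0
  · exact g1
  · rfl
  · exact g3
  · rfl
  · exact g5

lemma mer_rel : Rel (mer linkM 2) (mer linkM 4) := by
  have h3 := rel_one 3
  have h5 := rel_one 5
  rw [nb3] at h3
  rw [nb5] at h5
  change mer linkM 3 ^ (-2 : ℤ) * (mer linkM 0 * 1) = 1 at h3
  change mer linkM 5 ^ (-2 : ℤ) * (mer linkM 1 * 1) = 1 at h5
  have g0 : mer linkM 0 = (mer linkM 2)⁻¹ * (mer linkM 2)⁻¹ := mer_eq 0
  have g1 : mer linkM 1 = (mer linkM 4)⁻¹ * (mer linkM 4)⁻¹ := mer_eq 1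
  have g3 : mer linkM 3 = (mer linkM 2)⁻¹ * (mer linkM 4 * mer linkM 4) := mer_eq 3
  have g5 : mer linkM 5 = (mer linkM 4)⁻¹ * (mer linkM 2 * mer linkM 2) := mer_eq 5
  rw [mul_one, zpow_neg, inv_mul_eq_one, zpow_ofNat, pow_two, g3, g0, mul_assoc] at h3
  rw [mul_one, zpow_neg, inv_mul_eq_one, zpow_ofNat, pow_two, g5, g1, mul_assoc] at h5
  have h3' := mul_left_cancel h3
  have h5' := mul_left_cancel h5
  constructor
  · have := congrArg (fun x => x⁻¹) h3'
    simp only [_root_.mul_inv_rev, inv_inv] at this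
    have e : mer linkM 4 * mer linkM 4 * mer linkM 2 * (mer linkM 4 * mer linkM 4) =
      (mer linkM 4 * mer linkM 4) * ((mer linkM 4)⁻¹ * (mer linkM 4)⁻¹ * mer linkM 2 * ((mer linkM 4)⁻¹ * (mer linkM 4)⁻¹)) * (mer linkM 4 * mer linkM 4) := by
      rw [this]
    rw [e]; group
  · have := congrArg (fun x => x⁻¹) h5'
    simp only [_root_.mul_inv_rev, inv_inv] at this
    have e : mer linkM 2 * mer linkM 2 * mer linkM 4 * (mer linkM 2 * mer linkM 2) =
      (mer linkM 2 * mer linkM 2) * ((mer linkM 2)⁻¹ * (mer linkM 2)⁻¹ * mer linkM 4 * ((mer linkM 2)⁻¹ * (mer linkM 2)⁻¹)) * (mer linkM 2 * mer linkM 2) := by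
      rw [this]
    rw [e]; group

lemma rho_rel {H : Type*} [Group H] (ρ : piOne linkM →* H) : Rel (ρ (mer linkM 2)) (ρ (mer linkM 4)) := by
  obtain ⟨h1, h2⟩ := mer_rel
  exact ⟨by rw [← map_mul, ← map_mul, ← map_mul, h1], by rw [← map_mul, ← map_mul, ← map_mul, h2]⟩

lemma rho_mer {H : Type*} [Group H] (ρ : piOne linkM →* H) (i : Fin (linkM.n + 1)) :
    ρ (mer linkM i) = gens (ρ (mer linkM 2)) (ρ (mer linkM 4)) i := by
  rw [mer_eq i]
  have hi : i = 0 ∨ i = 1 ∨ i = 2 ∨ i = 3 ∨ i = 4 ∨ i = 5 := by revert i; decide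
  rcases hi with rfl | rfl | rfl | rfl | rfl | rfl <;> simp [gens]

lemma hom_ext' {H : Type*} [Group H] {ρ σ : piOne linkM →* H} (h2 : ρ (mer linkM 2) = σ (mer linkM 2))
    (h4 : ρ (mer linkM 4) = σ (mer linkM 4)) : ρ = σ := by
  apply PresentedGroup.ext
  intro i
  change ρ (mer linkM i) = σ (mer linkM i)
  rw [rho_mer, rho_mer σ, h2, h4]

end Pool.Agent.W617.GR
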