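import Mathlib
import Pool.Agent.W617.GR.Grp

set_option autoImplicit false

open WRT TreeWRT

namespace Pool.Agent.W617.GR

section
variable {G : Type*} [Group G] {ρ : G →* SUtwo}

lemma Zo_one {f : G → suAlg} (hf : f ∈ Zo ρ) : f 1 = 0 := by
  have h := hf 1 1
  rw [mul_one, map_one, Ad_one] at h
  simpa using h

lemma Zo_inv {f : G → suAlg} (hf : f ∈ Zo ρ) (g : G) : f g⁻¹ = -Ad (ρ g⁻¹) (f g) := by
  have h := hf g⁻¹ g
  rw [inv_mul_cancel, Zo_one hf] at h
  exact eq_neg_of_add_eq_zero_left h.symm

/-- a cocycle satisfies the condition of a relation -/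
lemma Zo_cond {f : G → suAlg} (hf : f ∈ Zo ρ) {p q : G} (h : q * q * p * (q * q) = p) :
    Cond (ρ p) (ρ q) (f p) (f q) := by
  have h1 := congrArg f h
  rw [hf (q * q * p) (q * q), hf (q * q) p, hf q q] at h1
  simp only [map_mul ρ] at h1
  exact h1

/-- the elements at which a cocycle vanishes form a subgroup -/
def van (f : G → suAlg) (hf : f ∈ Zo ρ) : Subgroup G where
  carrier := {g | f g = 0}
  one_mem' := Zo_one hf
  mul_mem' := by
    intro g h hg hh
    change f g = 0 at hg
    change f h = 0 at hh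
    change f (g * h) = 0
    rw [hf g h, hg, hh, map_zero, add_zero]
  inv_mem' := by
    intro g hg
    change f g = 0 at hg
    change f g⁻¹ = 0
    rw [Zo_inv hf, hg, map_zero, neg_zero]

end

lemma Zo_ext (ρ : Flat linkM) {f : piOne linkM → suAlg} (hf : f ∈ Zo ρ) (h2 : f (mer linkM 2) = 0)
    (h4 : f (mer linkM 4) = 0) : f = 0 := by
  have h : van f hf = ⊤ := by
    rw [eq_top_iff, ← PresentedGroup.closure_range_of, Subgroup.closure_le]
    rintro _ ⟨i, rfl⟩
    change mer linkM i ∈ van f hf
    have m2 : mer linkM 2 ∈ van f hf := h2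
    have m4 : mer linkM 4 ∈ van f hf := h4
    rw [mer_eq i]
    have hi : i = 0 ∨ i = 1 ∨ i = 2 ∨ i = 3 ∨ i = 4 ∨ i = 5 := by revert i; decide
    rcases hi with rfl | rfl | rfl | rfl | rfl | rfl
    · exact mul_mem (inv_mem m2) (inv_mem m2)
    · exact mul_mem (inv_mem m4) (inv_mem m4)
    · exact m2
    · exact mul_mem (inv_mem m2) (mul_mem m4 m4)
    · exact m4
    · exact mul_mem (inv_mem m4) (mul_mem m2 m2)
  funext g
  have : g ∈ van f hf := by rw [h]; trivial
  exact this

/-- evaluation of cocycles at the two generators -/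
noncomputable def ev (ρ : Flat linkM) : Zo ρ →ₗ[ℝ] K (ρ (mer linkM 2)) (ρ (mer linkM 4)) where
  toFun f := ⟨(f.1 (mer linkM 2), f.1 (mer linkM 4)), mem_K.mpr ⟨Zo_cond f.2 mer_rel.1, Zo_cond f.2 mer_rel.2⟩⟩
  map_add' _ _ := rfl
  map_smul' _ _ := rfl

lemma ev_inj (ρ : Flat linkM) : Function.Injective (ev ρ) := by
  rw [injective_iff_map_eq_zero]
  intro f hf
  have h1 := congrArg (fun x => x.1) hf
  have h2 : f.1 (mer linkM 2) = 0 := congrArg Prod.fst h1
  have h4 : f.1 (mer linkM 4) = 0 := congrArg Prod.snd h1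
  exact Subtype.ext (Zo_ext ρ f.2 h2 h4)

instance : FiniteDimensional ℝ suAlg := Module.finite_of_finrank_pos (by rw [finrank_suAlg]; norm_num)

instance (ρ : Flat linkM) : FiniteDimensional ℝ (Zo ρ) := Module.Finite.of_injective (ev ρ) (ev_inj ρ)

/-- the upper bound for h^1 - h^0 -/
theorem excess_le (ρ : Flat linkM)
    (hne : ¬ ((ρ (mer linkM 2)).1.trace = 0 ∧ (ρ (mer linkM 4)).1.trace = 0 ∧
      ((ρ (mer linkM 2)).1 * (ρ (mer linkM 4)).1).trace = 0)) : h1 ρ - h0 ρ ≤ 1 := by
  rw [excess_eq]
  have h1 := LinearMap.finrank_le_finrank_of_injective (ev_inj ρ)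
  have h2 := finrank_K_le _ _ (rho_rel ρ) hne
  omega

/-- Ad as an action on the multiplicative version of su(2) -/
noncomputable def adAut : SUtwo →* MulAut (Multiplicative suAlg) where
  toFun g := AddEquiv.toMultiplicative
    { toFun := Ad g
      invFun := Ad g⁻¹
      left_inv := fun X => by rw [← Ad_mul, inv_mul_cancel, Ad_one]
      right_inv := fun X => by rw [← Ad_mul, mul_inv_cancel, Ad_one]
      map_add' := fun X Y => map_add _ X Y }
  map_one' := by
    refine MulEquiv.ext fun X => ?_
    exact congrArg Multiplicative.ofAdd (Ad_one (Multiplicative.toAdd X))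
  map_mul' g h := by
    refine MulEquiv.ext fun X => ?_
    exact congrArg Multiplicative.ofAdd (Ad_mul g h (Multiplicative.toAdd X))

lemma adAut_apply (g : SUtwo) (X : Multiplicative suAlg) :
    adAut g X = Multiplicative.ofAdd (Ad g (Multiplicative.toAdd X)) := rfl

/-- every pair satisfying the conditions comes from a cocycle -/
theorem ev_surj (ρ : Flat linkM) : Function.Surjective (ev ρ) := by
  rintro ⟨⟨u, v⟩, hx⟩
  obtain ⟨c1, c2⟩ := mem_K.mp hx
  obtain ⟨r1, r2⟩ := rho_rel ρ
  have hrel : Rel (⟨Multiplicative.ofAdd u, ρ (mer linkM 2)⟩ : Multiplicative suAlg ⋊[adAut] SUtwo)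
      (⟨Multiplicative.ofAdd v, ρ (mer linkM 4)⟩) := by
    constructor
    · apply SemidirectProduct.ext
      · simp only [SemidirectProduct.mul_left, SemidirectProduct.mul_right, adAut_apply]
        apply Multiplicative.toAdd.injective
        simp only [toAdd_mul, toAdd_ofAdd]
        exact c1
      · exact r1
    · apply SemidirectProduct.ext
      · simp only [SemidirectProduct.mul_left, SemidirectProduct.mul_right, adAut_apply]
        apply Multiplicative.toAdd.injective
        simp only [toAdd_mul, toAdd_ofAdd]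
        exact c2
      · exact r2
  let Φ := mk hrel
  have hΦ : ∀ g, (Φ g).right = ρ g := by
    intro g
    have : (SemidirectProduct.rightHom.comp Φ) = ρ := by
      apply hom_ext'
      · rw [MonoidHom.comp_apply, mk_mer]; rfl
      · rw [MonoidHom.comp_apply, mk_mer]; rfl
    exact DFunLike.congr_fun this g
  refine ⟨⟨fun g => Multiplicative.toAdd (Φ g).left, ?_⟩, ?_⟩
  · intro g h
    simp only [map_mul, SemidirectProduct.mul_left, toAdd_mul, hΦ, adAut_apply, toAdd_ofAdd]
  · apply Subtype.ext
    apply Prod.ext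
    · change Multiplicative.toAdd (Φ (mer linkM 2)).left = u
      rw [mk_mer]; rfl
    · change Multiplicative.toAdd (Φ (mer linkM 4)).left = v
      rw [mk_mer]; rfl

end Pool.Agent.W617.GR
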