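import Mathlib
import Pool.Agent.W617.GR.Coc
import Pool.Agent.H833R2.AECGrowth

set_option autoImplicit false

open WRT TreeWRT Filter Topology

namespace Pool.Agent.W617.GR

lemma trace_real_mul {v : suAlg} {Q : SUtwo} (hQ : Q.1.trace = 0) : (((v.1 * Q.1).trace.re : ℝ) : ℂ) = (v.1 * Q.1).trace := by
  have h1 : star (v.1 * Q.1).trace = (v.1 * Q.1).trace := by
    have h2 : (v.1 * Q.1).conjTranspose = Q.1 * v.1 := by
      have h3 : Q.1.conjTranspose = -Q.1 := (toSu hQ).2.1
      rw [Matrix.conjTranspose_mul, v.2.1, h3, neg_mul_neg]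
    rw [← Matrix.trace_conjTranspose, h2, Matrix.trace_mul_comm]
  exact Complex.conj_eq_iff_real.mp h1 |>.elim fun r hr => by rw [hr]; simp

/-- the dimension of K at the generic points of the family -/
theorem finrank_K_eq {P Q : SUtwo} (h : Rel P Q) (hP : P.1.trace = 0) (hQ : Q.1.trace = 0)
    (hs : (P.1 * Q.1).trace ≠ 0) : Module.finrank ℝ (K P Q) = 4 := by
  apply le_antisymm (finrank_K_le P Q h fun h => hs h.2.2)
  let Λ : suAlg × suAlg →ₗ[ℝ] ℝ × ℝ := LinearMap.prod
    ((tf Q.1).comp (LinearMap.snd ℝ suAlg suAlg)) ((tf P.1).comp (LinearMap.fst ℝ suAlg suAlg))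
  have hΛ : ∀ z, Λ z = (tf Q.1 z.2, tf P.1 z.1) := fun z => rfl
  have hle : LinearMap.ker Λ ≤ K P Q := by
    intro z hz
    rw [LinearMap.mem_ker, hΛ] at hz
    have h1 : (z.2.1 * Q.1).trace = 0 := by
      have h2 : tf Q.1 z.2 = 0 := congrArg Prod.fst hz
      rw [← trace_real_mul hQ]
      change ((tf Q.1 z.2 : ℝ) : ℂ) = 0
      rw [h2]; simp
    have h3 : (z.1.1 * P.1).trace = 0 := by
      have h2 : tf P.1 z.1 = 0 := congrArg Prod.snd hz
      rw [← trace_real_mul hP]
      change ((tf P.1 z.1 : ℝ) : ℂ) = 0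
      rw [h2]; simp
    have h4 : z.2 + Ad Q z.2 = 0 := by
      apply Subtype.ext
      rw [w_eq hQ, h1]; simp
    have h5 : z.1 + Ad P z.1 = 0 := by
      apply Subtype.ext
      rw [w_eq hP, h3]; simp
    refine mem_K.mpr ⟨?_, ?_⟩
    · rw [Cond, h4, Ad_sq_apply hQ]; simp
    · rw [Cond, h5, Ad_sq_apply hP]; simp
  have h5 := LinearMap.finrank_range_add_finrank_ker Λ
  have h6 : Module.finrank ℝ (LinearMap.range Λ) ≤ 2 := by
    have := Submodule.finrank_le (LinearMap.range Λ)
    rwa [Module.finrank_prod, Module.finrank_self] at this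
  rw [Module.finrank_prod, finrank_suAlg] at h5
  have h7 := Submodule.finrank_mono hle
  omega

theorem excess_eq_one (ρ : Flat linkM) (k0 : ((ρ (mer linkM 2)).1 * (ρ (mer linkM 4)).1).trace ≠ 0)
    (k4 : ((ρ (mer linkM 2)).1 * (ρ (mer linkM 4)).1).trace ^ 2 ≠ 4) : h1 ρ - h0 ρ = 1 := by
  obtain ⟨hP, hQ⟩ := classify (rho_rel ρ) k0 k4
  rw [excess_eq]
  have k1 := (LinearEquiv.ofBijective (ev ρ) ⟨ev_inj ρ, ev_surj ρ⟩).finrank_eq
  rw [finrank_K_eq (rho_rel ρ) hP hQ k0] at k1
  omega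

/-- elements of trace zero satisfy the relations -/
lemma rel_of_zero {P Q : SUtwo} (hP : P.1.trace = 0) (hQ : Q.1.trace = 0) : Rel P Q := by
  constructor
  · apply Subtype.ext
    change Q.1 * Q.1 * P.1 * (Q.1 * Q.1) = P.1
    rw [sq_zero hQ]; simp
  · apply Subtype.ext
    change P.1 * P.1 * Q.1 * (P.1 * P.1) = Q.1
    rw [sq_zero hP]; simp

lemma mem_of_sq {X : M2} (h1 : X.conjTranspose = -X) (h2 : X.trace = 0) (h3 : X * X = -1) :
    X ∈ Matrix.specialUnitaryGroup (Fin 2) ℂ := by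
  rw [Matrix.mem_specialUnitaryGroup_iff, Matrix.mem_unitaryGroup_iff, Matrix.star_eq_conjTranspose, h1]
  constructor
  · rw [mul_neg, h3, neg_neg]
  · have h4 : X 1 1 = -X 0 0 := by
      rw [Matrix.trace_fin_two] at h2
      linear_combination h2
    have h5 := congrFun (congrFun h3 0) 0
    rw [Matrix.mul_apply, Fin.sum_univ_two] at h5
    simp at h5
    rw [Matrix.det_fin_two, h4]
    linear_combination -h5

/-- the path of the second generator -/
noncomputable def Qt {P Q : SUtwo} (hP : P.1.trace = 0) (hQ : Q.1.trace = 0) (hs : (P.1 * Q.1).trace = 0) (t : ℝ) : SUtwo :=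
  ⟨(Real.cos t : ℂ) • Q.1 + (Real.sin t : ℂ) • P.1, mem_of_sq
    (by
      have h1 : Q.1.conjTranspose = -Q.1 := (toSu hQ).2.1
      have h2 : P.1.conjTranspose = -P.1 := (toSu hP).2.1
      rw [Matrix.conjTranspose_add, Matrix.conjTranspose_smul, Matrix.conjTranspose_smul, h1, h2]
      simp only [Complex.star_def, Complex.conj_ofReal, smul_neg, neg_add_rev]
      abel)
    (by rw [Matrix.trace_add, Matrix.trace_smul, Matrix.trace_smul, hP, hQ]; simp)
    (by
      have h1 := anti P.1 Q.1 hP hQ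
      rw [hs, zero_smul] at h1
      have h2 : Q.1 * P.1 = -(P.1 * Q.1) := eq_neg_of_add_eq_zero_right h1
      rw [add_mul, mul_add, mul_add, smul_mul_smul_comm, smul_mul_smul_comm, smul_mul_smul_comm, smul_mul_smul_comm,
        h2, sq_zero hP, sq_zero hQ]
      have h3 : (Real.cos t : ℂ) * (Real.cos t : ℂ) + (Real.sin t : ℂ) * (Real.sin t : ℂ) = 1 := by
        rw [← Complex.ofReal_mul, ← Complex.ofReal_mul, ← Complex.ofReal_add]
        have h5 : Real.cos t * Real.cos t + Real.sin t * Real.sin t = 1 := by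
          have := Real.cos_sq_add_sin_sq t
          nlinarith
        rw [h5]; simp
      have h4 : ((Real.cos t : ℂ) * (Real.cos t : ℂ)) • (-1 : M2) + ((Real.cos t : ℂ) * (Real.sin t : ℂ)) • (-(P.1 * Q.1)) +
          (((Real.sin t : ℂ) * (Real.cos t : ℂ)) • (P.1 * Q.1) + ((Real.sin t : ℂ) * (Real.sin t : ℂ)) • (-1 : M2)) =
          ((Real.cos t : ℂ) * (Real.cos t : ℂ) + (Real.sin t : ℂ) * (Real.sin t : ℂ)) • (-1 : M2) := by
        rw [add_smul, mul_comm (Real.cos t : ℂ) (Real.sin t : ℂ), smul_neg ((Real.sin t : ℂ) * (Real.cos t : ℂ))]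
        generalize ((Real.sin t : ℂ) * (Real.cos t : ℂ)) • (P.1 * Q.1) = Y
        generalize ((Real.cos t : ℂ) * (Real.cos t : ℂ)) • (-1 : M2) = Z
        generalize ((Real.sin t : ℂ) * (Real.sin t : ℂ)) • (-1 : M2) = W
        abel
      rw [h4, h3, one_smul])⟩

lemma Qt_val {P Q : SUtwo} (hP : P.1.trace = 0) (hQ : Q.1.trace = 0) (hs : (P.1 * Q.1).trace = 0) (t : ℝ) :
    (Qt hP hQ hs t).1 = (Real.cos t : ℂ) • Q.1 + (Real.sin t : ℂ) • P.1 := rfl

lemma Qt_trace {P Q : SUtwo} (hP : P.1.trace = 0) (hQ : Q.1.trace = 0) (hs : (P.1 * Q.1).trace = 0) (t : ℝ) :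
    (Qt hP hQ hs t).1.trace = 0 := by
  rw [Qt_val, Matrix.trace_add, Matrix.trace_smul, Matrix.trace_smul, hP, hQ]; simp

lemma Qt_zero {P Q : SUtwo} (hP : P.1.trace = 0) (hQ : Q.1.trace = 0) (hs : (P.1 * Q.1).trace = 0) :
    Qt hP hQ hs 0 = Q := by
  apply Subtype.ext
  rw [Qt_val]; simp

lemma Qt_mul {P Q : SUtwo} (hP : P.1.trace = 0) (hQ : Q.1.trace = 0) (hs : (P.1 * Q.1).trace = 0) (t : ℝ) :
    (P.1 * (Qt hP hQ hs t).1).trace = ((-2 * Real.sin t : ℝ) : ℂ) := by
  rw [Qt_val, mul_add, mul_smul_comm, mul_smul_comm, Matrix.trace_add, Matrix.trace_smul, Matrix.trace_smul, hs,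
    sq_zero hP, trace_neg_one]
  simp
  ring

lemma Qt_cont {P Q : SUtwo} (hP : P.1.trace = 0) (hQ : Q.1.trace = 0) (hs : (P.1 * Q.1).trace = 0) :
    Continuous fun t => (Qt hP hQ hs t).1 := by
  simp only [Qt_val]
  have h1 : Continuous fun t : ℝ => (Real.cos t : ℂ) := Complex.continuous_ofReal.comp Real.continuous_cos
  have h2 : Continuous fun t : ℝ => (Real.sin t : ℂ) := Complex.continuous_ofReal.comp Real.continuous_sin
  exact (h1.smul continuous_const).add (h2.smul continuous_const)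

/-- the path of flat connections through a quaternionic one -/
noncomputable def rt {P Q : SUtwo} (hP : P.1.trace = 0) (hQ : Q.1.trace = 0) (hs : (P.1 * Q.1).trace = 0) (t : ℝ) :
    Flat linkM := mk (rel_of_zero hP (Qt_trace hP hQ hs t))

lemma rt_cont {P Q : SUtwo} (hP : P.1.trace = 0) (hQ : Q.1.trace = 0) (hs : (P.1 * Q.1).trace = 0) :
    Continuous fun t => hol (rt hP hQ hs t) := by
  apply continuous_pi
  intro i
  rw [continuous_induced_rng]
  have hc := Qt_cont hP hQ hs
  have hci : Continuous fun t => ((Qt hP hQ hs t)⁻¹).1 := by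
    have : (fun t => ((Qt hP hQ hs t)⁻¹).1) = fun t => -(Qt hP hQ hs t).1 := by
      funext t
      rw [inv_eq, Qt_trace]; simp
    rw [this]
    exact hc.neg
  have e : (fun t => hol (rt hP hQ hs t) i) = fun t => gens P (Qt hP hQ hs t) i := by
    funext t
    exact mk_mer _ i
  rw [show (Subtype.val ∘ fun t => hol (rt hP hQ hs t) i) = fun t => (gens P (Qt hP hQ hs t) i).1 by
    funext t; exact congrArg Subtype.val (congrFun e t)]
  have hi : ∀ i : Fin (linkM.n + 1), i = 0 ∨ i = 1 ∨ i = 2 ∨ i = 3 ∨ i = 4 ∨ i = 5 := by decide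
  rcases hi i with rfl | rfl | rfl | rfl | rfl | rfl
  · change Continuous fun _ => (P⁻¹ * P⁻¹).1
    exact continuous_const
  · exact hci.mul hci
  · change Continuous fun _ => P.1
    exact continuous_const
  · change Continuous fun t => (P⁻¹).1 * ((Qt hP hQ hs t).1 * (Qt hP hQ hs t).1)
    exact continuous_const.mul (hc.mul hc)
  · exact hc
  · change Continuous fun t => ((Qt hP hQ hs t)⁻¹).1 * (P.1 * P.1)
    exact hci.mul continuous_const

lemma coords_cont {X : Type*} [TopologicalSpace X] {n : ℕ} {f : X → Fin n → SUtwo} (hf : Continuous f) :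
    Continuous fun t => coords (f t) := by
  apply continuous_pi
  rintro ⟨⟨i, a, b⟩, c⟩
  have h1 : Continuous fun t => (f t i).1 a b := by
    have h2 : Continuous fun t => (f t i).1 := continuous_subtype_val.comp ((continuous_apply i).comp hf)
    exact (continuous_apply b).comp ((continuous_apply a).comp h2)
  unfold coords
  cases c
  · exact Complex.continuous_im.comp h1
  · exact Complex.continuous_re.comp h1

/-- the upper bound for the generic values -/
theorem values_le (cs : Flat linkM → AddCircle (1 : ℝ)) (hcs : ConstOnConnected cs) :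
    ∀ v ∈ genericValues linkM cs, v ≤ 1 := by
  rintro v ⟨c, U, ⟨Ps, hU⟩, ⟨ρ, hρ⟩, hv⟩
  by_cases hne : ((ρ (mer linkM 2)).1.trace = 0 ∧ (ρ (mer linkM 4)).1.trace = 0 ∧
      ((ρ (mer linkM 2)).1 * (ρ (mer linkM 4)).1).trace = 0)
  · obtain ⟨hP, hQ, hs⟩ := hne
    have hρ' := hρ
    rw [hU] at hρ'
    obtain ⟨h1, p, hp, h2⟩ := hρ'
    have h0 : rt hP hQ hs 0 = ρ := by
      apply hom_ext'
      · rw [rt, mk_mer]; rfl
      · rw [rt, mk_mer]
        exact Qt_zero hP hQ hs
    have hc : Continuous fun t => MvPolynomial.eval (coords (hol (rt hP hQ hs t))) p :=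
      (MvPolynomial.continuous_eval p).comp (coords_cont (rt_cont hP hQ hs))
    have hopen : ∀ᶠ t in 𝓝 (0 : ℝ), MvPolynomial.eval (coords (hol (rt hP hQ hs t))) p ≠ 0 := by
      apply hc.continuousAt.eventually_ne
      rw [h0]; exact h2
    obtain ⟨δ, hδ, hball⟩ := Metric.eventually_nhds_iff.mp hopen
    set t := min (δ / 2) 1 with ht
    have htpos : 0 < t := lt_min (by linarith) one_pos
    have ht1 : t ≤ 1 := min_le_right _ _
    have htδ : dist t 0 < δ := by
      rw [Real.dist_eq, sub_zero, abs_of_pos htpos]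
      have := min_le_left (δ / 2) 1
      linarith
    have hmem : rt hP hQ hs t ∈ U := by
      rw [hU]
      refine ⟨?_, p, hp, hball htδ⟩
      have hT : IsPreconnected (hol '' Set.range (rt hP hQ hs)) := by
        rw [← Set.range_comp]
        exact isPreconnected_range (rt_cont hP hQ hs)
      have := hcs _ hT (rt hP hQ hs t) ⟨t, rfl⟩ (rt hP hQ hs 0) ⟨0, rfl⟩
      rw [h0] at this
      change cs (rt hP hQ hs t) = c
      rw [this]
      exact h1
    rw [← hv _ hmem]
    apply excess_le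
    rintro ⟨-, -, h3⟩
    have e2 : rt hP hQ hs t (mer linkM 2) = ρ (mer linkM 2) := by rw [rt, mk_mer]; rfl
    have e4 : rt hP hQ hs t (mer linkM 4) = Qt hP hQ hs t := by rw [rt, mk_mer]; rfl
    rw [e2, e4, Qt_mul] at h3
    have h4 : -2 * Real.sin t = 0 := by exact_mod_cast h3
    have h5 : 0 < Real.sin t := Real.sin_pos_of_pos_of_lt_pi htpos (by linarith [Real.pi_gt_three])
    linarith
  · rw [← hv ρ hρ]
    exact excess_le ρ hne

/-- the real part of the trace of the product of the two generators, as a polynomial -/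
noncomputable def f1 : MvPolynomial ((Fin (linkM.n + 1) × Fin 2 × Fin 2) × Bool) ℝ :=
  ∑ a : Fin 2, ∑ b : Fin 2, (MvPolynomial.X ((2, a, b), true) * MvPolynomial.X ((4, b, a), true) -
    MvPolynomial.X ((2, a, b), false) * MvPolynomial.X ((4, b, a), false))

lemma eval_f1 (ρ : Flat linkM) : MvPolynomial.eval (coords (hol ρ)) f1 =
    ((ρ (mer linkM 2)).1 * (ρ (mer linkM 4)).1).trace.re := by
  simp only [f1, Fin.sum_univ_two, Matrix.trace_fin_two, Matrix.mul_apply, Complex.add_re, Complex.mul_re]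
  simp [coords, hol]

lemma trace_re (P Q : SUtwo) : ((((P.1 * Q.1).trace).re : ℝ) : ℂ) = (P.1 * Q.1).trace := by
  have h := trace_star (P * Q)
  exact Complex.conj_eq_iff_real.mp h |>.elim fun r hr => by
    have : (P.1 * Q.1).trace = (r : ℂ) := hr
    rw [this]; simp

/-- two particular elements -/
noncomputable def P1 : SUtwo := ⟨!![Complex.I, 0; 0, -Complex.I], mem_of_sq
  (by ext i j; fin_cases i <;> fin_cases j <;> simp) (by simp [Matrix.trace_fin_two])
  (by ext i j; fin_cases i <;> fin_cases j <;> simp)⟩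

noncomputable def Q1 : SUtwo := ⟨!![(3 / 5 : ℂ) * Complex.I, -(4 / 5 : ℂ); (4 / 5 : ℂ), -((3 / 5 : ℂ) * Complex.I)], mem_of_sq
  (by ext i j; fin_cases i <;> fin_cases j <;> simp) (by simp [Matrix.trace_fin_two])
  (by
    have hI : Complex.I * Complex.I = -1 := Complex.I_mul_I
    ext i j
    fin_cases i <;> fin_cases j <;> simp
    · linear_combination (9 / 25 : ℂ) * hI
    · ring
    · ring
    · linear_combination (9 / 25 : ℂ) * hI)⟩

lemma P1_trace : P1.1.trace = 0 := by simp [P1, Matrix.trace_fin_two]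
lemma Q1_trace : Q1.1.trace = 0 := by simp [Q1, Matrix.trace_fin_two]
lemma P1Q1 : (P1.1 * Q1.1).trace = -(6 / 5 : ℂ) := by
  have hI : Complex.I * Complex.I = -1 := Complex.I_mul_I
  simp [P1, Q1, Matrix.trace_fin_two]
  linear_combination (6 / 5 : ℂ) * hI

/-- the value 1 is taken on a nonempty Zariski open subset -/
theorem one_mem (cs : Flat linkM → AddCircle (1 : ℝ)) : (1 : ℤ) ∈ genericValues linkM cs := by
  let ρ1 : Flat linkM := mk (rel_of_zero P1_trace Q1_trace)
  refine ⟨cs ρ1, {ρ | cs ρ = cs ρ1 ∧ ∃ p ∈ ({f1 * (4 - f1 ^ 2)} : Set _),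
    MvPolynomial.eval (coords (hol ρ)) p ≠ 0}, ⟨{f1 * (4 - f1 ^ 2)}, rfl⟩, ⟨ρ1, rfl, _, rfl, ?_⟩, ?_⟩
  · have e2 : ρ1 (mer linkM 2) = P1 := by simp only [ρ1]; rw [mk_mer]; rfl
    have e4 : ρ1 (mer linkM 4) = Q1 := by simp only [ρ1]; rw [mk_mer]; rfl
    have h1 : MvPolynomial.eval (coords (hol ρ1)) f1 = -(6 / 5) := by
      rw [eval_f1, e2, e4, P1Q1]
      norm_num
    rw [map_mul, map_sub, map_pow, h1]
    have : MvPolynomial.eval (coords (hol ρ1)) (4 : MvPolynomial ((Fin (linkM.n + 1) × Fin 2 × Fin 2) × Bool) ℝ) = 4 :=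
      map_ofNat _ 4
    rw [this]
    norm_num
  · rintro ρ ⟨-, p, hp, h2⟩
    rw [Set.mem_singleton_iff] at hp
    have : MvPolynomial.eval (coords (hol ρ)) (4 : MvPolynomial ((Fin (linkM.n + 1) × Fin 2 × Fin 2) × Bool) ℝ) = 4 :=
      map_ofNat _ 4
    rw [hp, map_mul, map_sub, map_pow, this, eval_f1] at h2
    have h3 := trace_re (ρ (mer linkM 2)) (ρ (mer linkM 4))
    apply excess_eq_one
    · intro h4
      apply h2
      rw [h4]; simp
    · intro h4
      apply h2
      rw [← h3] at h4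
      have h5 : ((ρ (mer linkM 2)).1 * (ρ (mer linkM 4)).1).trace.re ^ 2 = 4 := by exact_mod_cast h4
      rw [h5]; ring

/-- the growth -/
theorem growth : Tendsto (fun r : ℕ => ‖Zinv linkM r‖ / (r : ℝ) ^ ((1 : ℝ) / 2)) atTop atTop := by
  have h := Z_growth.norm
  have hpos : 0 < ‖((Real.sqrt 2 / Real.pi : ℝ) : ℂ)‖ := by
    rw [Complex.norm_real, Real.norm_eq_abs, abs_pos]
    have := Real.pi_pos
    positivity
  have hlog : Tendsto (fun r : ℕ => Real.log r) atTop atTop := Real.tendsto_log_atTop.comp tendsto_natCast_atTop_atTop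
  have h2 := h.pos_mul_atTop hpos hlog
  refine h2.congr' ?_
  filter_upwards [eventually_ge_atTop 2] with r hr
  have hr' : (2 : ℝ) ≤ r := by exact_mod_cast hr
  have hl : 0 < Real.log r := Real.log_pos (by linarith)
  have hs : 0 < Real.sqrt r := Real.sqrt_pos.mpr (by linarith)
  rw [norm_div, norm_mul, norm_pow, norm_neg, norm_one, one_pow, one_mul, Complex.norm_real, Real.norm_eq_abs,
    abs_of_pos (mul_pos hs hl), ← Real.sqrt_eq_rpow]
  field_simp

end Pool.Agent.W617.GR
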